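import Pool.Agent.W2helper82.OA.Stm

/-!
Outer boundaries, piece P19: `S_MAINZ` and `S_CNT` imply `S_FINL`.
-/

set_option autoImplicit false

namespace Pool.Agent.W2helper82.OA.P19

open H974 H12S Finset H984P H984N
open Pool.Agent.Y989.FR (Awy AE)

/-! ### Symmetries of the box -/

/-- a symmetry of the box `[0, N]²` of order two -/
structure BSym (N : ℕ) (g : LSym) : Prop where
  box : g.mp (RE 0 N 0 N) = RE 0 N 0 N
  inb : ∀ u, inR 0 N 0 N u → inR 0 N 0 N (g.ψ u)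
  inv : ∀ u, g.ψ (g.ψ u) = u
  mpp : ∀ F : Finset Edg, g.mp (g.mp F) = F
  dst : ∀ u v, sd (g.ψ u) (g.ψ v) = sd u v
  bl : ∀ v r, g.mp (blk v r) = blk (g.ψ v) r

theorem bsym_rfy (N : ℕ) : BSym N (rfy N) where
  box := by
    rw [rfy_RE]
    congr 1 <;> ring
  inb := by
    rintro ⟨x, y⟩ h
    rw [rfy_ψ]
    unfold inR at h ⊢
    simp only at h ⊢
    omega
  inv := by
    rintro ⟨x, y⟩
    rw [rfy_ψ, rfy_ψ]
    congr 1
    ring
  mpp := by
    intro F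
    ext ⟨x, y, _ | _⟩
    · rw [LSym.mem_mp, LSym.mem_mp, rfy_φsf, rfy_φsf]
      have : (N : ℤ) - (N - y - 1) - 1 = y := by ring
      rw [this]
    · rw [LSym.mem_mp, LSym.mem_mp, rfy_φst, rfy_φst]
      have : (N : ℤ) - (N - y) = y := by ring
      rw [this]
  dst := by
    rintro ⟨x, y⟩ ⟨x', y'⟩
    rw [rfy_ψ, rfy_ψ]
    unfold sd
    simp only
    have : (N : ℤ) - y - (N - y') = -(y - y') := by ring
    rw [this, abs_neg]
  bl := by
    rintro ⟨x, y⟩ r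
    unfold blk
    rw [rfy_RE, rfy_ψ]
    congr 1 <;> (simp only; ring)

theorem bsym_tps (N : ℕ) : BSym N tps where
  box := by rw [tps_RE]
  inb := by
    rintro ⟨x, y⟩ h
    rw [tps_ψ]
    unfold inR at h ⊢
    simp only at h ⊢
    omega
  inv := by
    rintro ⟨x, y⟩
    rw [tps_ψ, tps_ψ]
  mpp := tps_tps
  dst := by
    rintro ⟨x, y⟩ ⟨x', y'⟩
    rw [tps_ψ, tps_ψ]
    unfold sd
    simp only
    rw [max_comm]
  bl := by
    rintro ⟨x, y⟩ r
    unfold blk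
    rw [tps_RE, tps_ψ]

theorem ends_RE {a b c d : ℤ} {e : Edg} (h : e ∈ RE a b c d) :
    inR a b c d (src e) ∧ inR a b c d (tgt e) := by
  obtain ⟨x, y, _ | _⟩ := e
  · rw [mem_RE_false] at h
    unfold inR
    simp only [src_mk, tgt_false]
    omega
  · rw [mem_RE_true] at h
    unfold inR
    simp only [src_mk, tgt_true]
    omega

theorem reach_box {N : ℕ} {F : Finset Edg} {u v : Vtx} (hu : inR 0 N 0 N u)
    (h : Reach (↑F ∩ ↑(RE 0 N 0 N)) u v) : inR 0 N 0 N v := by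
  induction h with
  | refl => exact hu
  | tail _ hs _ =>
    obtain ⟨e, he, h1 | h1⟩ := hs
    · rw [← h1.2]
      exact (ends_RE (mem_coe.1 he.2)).2
    · rw [← h1.1]
      exact (ends_RE (mem_coe.1 he.2)).1

theorem mem_BX {N : ℕ} {u : Vtx} : u ∈ BX N ↔ inR 0 N 0 N u := by
  unfold BX inR
  rw [mem_product, mem_Icc, mem_Icc]

variable {N : ℕ} {g : LSym}

theorem clu_mem (hg : BSym N g) {F : Finset Edg} {u v : Vtx} (h : u ∈ Clu N v F) :
    g.ψ u ∈ Clu N (g.ψ v) (g.mp F) := by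
  have h1 : Reach (↑F ∩ ↑(RE 0 N 0 N)) v u := h
  have h2 := g.reach h1
  rw [LSym.image_inter, hg.box] at h2
  exact h2

theorem clu_img (hg : BSym N g) (F : Finset Edg) (v : Vtx) :
    Clu N (g.ψ v) (g.mp F) = g.ψ '' Clu N v F := by
  ext u
  constructor
  · intro h
    have h1 := clu_mem hg h
    rw [hg.inv, hg.mpp] at h1
    exact ⟨_, h1, hg.inv u⟩
  · rintro ⟨w, hw, rfl⟩
    exact clu_mem hg hw

theorem mem_bdB {c v : Vtx} {s : ℕ} : v ∈ bdB c s ↔ sd v c = s := by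
  unfold bdB sd
  simp only [Set.mem_ofPred_eq]
  constructor
  · rintro ⟨h1, h2, h3 | h3⟩
    · rw [max_eq_left (h3 ▸ h2), h3]
    · rw [max_eq_right (h3 ▸ h1), h3]
  · intro h
    refine ⟨h ▸ le_max_left _ _, h ▸ le_max_right _ _, ?_⟩
    rcases max_choice |v.1 - c.1| |v.2 - c.2| with h1 | h1
    · left; rw [← h1, h]
    · right; rw [← h1, h]

theorem awy_img (hg : BSym N g) {M B k : ℕ} {v c x : Vtx} (h : Awy M B k v c x) :
    Awy M B k (g.ψ v) (g.ψ c) (g.ψ x) := by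
  unfold Awy at h ⊢
  rw [hg.dst, hg.dst]
  exact h

theorem thk_img (hg : BSym N g) {M B k : ℕ} {v : Vtx} {C : Set Vtx} (h : Thk M B k v C) :
    Thk M B k (g.ψ v) (g.ψ '' C) := by
  obtain ⟨x, hx, y, hy, h1⟩ := h
  refine ⟨g.ψ x, ?_, g.ψ y, ?_, ?_⟩
  · rw [mem_bdB, hg.dst]
    exact mem_bdB.1 hx
  · rw [mem_bdB, hg.dst]
    exact mem_bdB.1 hy
  · apply (g.reach h1).mono
    rintro _ ⟨e, ⟨he1, he2, he3⟩, rfl⟩
    refine ⟨?_, ?_, ?_⟩
    · unfold AE at he1 ⊢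
      rw [mem_coe, mem_sdiff] at he1
      rw [mem_coe, mem_sdiff, ← hg.bl, ← hg.bl, LSym.mem_mp, LSym.mem_mp, Equiv.symm_apply_apply]
      exact he1
    · rintro _ ⟨c, hc, rfl⟩
      rcases g.compat e with ⟨h2, _⟩ | ⟨h2, _⟩
      · rw [h2]; exact awy_img hg (he2 c hc)
      · rw [h2]; exact awy_img hg (he3 c hc)
    · rintro _ ⟨c, hc, rfl⟩
      rcases g.compat e with ⟨_, h2⟩ | ⟨_, h2⟩
      · rw [h2]; exact awy_img hg (he3 c hc)
      · rw [h2]; exact awy_img hg (he2 c hc)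

theorem rich_img (hg : BSym N g) {M B : ℕ} {c0 E0 t : ℝ} {C : Set Vtx}
    (h : RichOut N M B c0 E0 t C) : RichOut N M B c0 E0 t (g.ψ '' C) := by
  classical
  obtain ⟨V, h1, h2, h3⟩ := h
  have hinj : Function.Injective g.ψ := g.ψ.injective
  refine ⟨V.image g.ψ, ?_, ?_, ?_⟩
  · intro v hv
    rw [mem_image] at hv
    obtain ⟨w, hw, rfl⟩ := hv
    exact ⟨⟨w, (h1 w hw).1, rfl⟩, thk_img hg (h1 w hw).2⟩
  · rw [card_image_of_injective _ hinj]
    exact h2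
  · unfold Enr at h3 ⊢
    rw [sum_image (fun a _ b _ hab => hinj hab)]
    refine le_trans (le_of_eq ?_) h3
    apply sum_congr rfl
    intro a _
    rw [sum_image (fun a _ b _ hab => hinj hab)]
    apply sum_congr rfl
    intro b _
    rw [hg.dst]

theorem rich_iff (hg : BSym N g) {M B : ℕ} {c0 E0 t : ℝ} {C : Set Vtx} :
    RichOut N M B c0 E0 t (g.ψ '' C) ↔ RichOut N M B c0 E0 t C := by
  constructor
  · intro h
    have h1 := rich_img hg h
    have h2 : g.ψ '' (g.ψ '' C) = C := by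
      ext u
      constructor
      · rintro ⟨_, ⟨w, hw, rfl⟩, rfl⟩
        rw [hg.inv]
        exact hw
      · intro hu
        exact ⟨g.ψ u, ⟨u, hu, rfl⟩, hg.inv u⟩
    rwa [h2] at h1
  · exact rich_img hg

/-! ### The lexicographic minimum -/

theorem clu_eq {F : Finset Edg} {u z : Vtx} (h : z ∈ Clu N u F) : Clu N z F = Clu N u F := by
  have h1 : Reach (↑F ∩ ↑(RE 0 N 0 N)) u z := h
  ext w
  constructor
  · intro hw
    exact h1.trans hw
  · intro hw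
    exact h1.symm.trans hw

theorem exists_min {m : ℕ} {F : Finset Edg} {u v : Vtx} (hu : inR 0 N 0 N u) (hv : v ∈ Clu N u F)
    (hm : u.1 + m ≤ v.1) : ∃ z, z ∈ Clu N u F ∧ Ez N m z F := by
  classical
  obtain ⟨T, hT⟩ : ∃ T, T = (BX N).filter (fun a => a ∈ Clu N u F) := ⟨_, rfl⟩
  have huT : u ∈ T := by
    rw [hT, mem_filter, mem_BX]
    exact ⟨hu, Reach.refl _ _⟩
  obtain ⟨z, hz, hmin⟩ := exists_min_image T (fun a => (toLex a : ℤ ×ₗ ℤ)) ⟨u, huT⟩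
  have hz' := hz
  rw [hT, mem_filter, mem_BX] at hz'
  have hLx : ∀ w, w ∈ Clu N u F → ¬ Lx z w := by
    intro w hw hlx
    have hwT : w ∈ T := by
      rw [hT, mem_filter, mem_BX]
      exact ⟨reach_box hu hw, hw⟩
    have h1 := hmin w hwT
    have h2 : (toLex w : ℤ ×ₗ ℤ) < toLex z := by
      rw [Prod.Lex.lt_iff]
      exact hlx
    exact absurd h1 (not_le.2 h2)
  refine ⟨z, hz'.2, hz'.1, ?_, v, ?_, ?_⟩
  · intro w hw
    apply hLx
    rw [← clu_eq hz'.2]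
    exact hw
  · have h1 := hLx u (Reach.refl _ _)
    unfold Lx at h1
    push Not at h1
    omega
  · have : v ∈ Clu N z F := by
      rw [clu_eq hz'.2]
      exact hv
    exact this

/-- the event of the union bound -/
def AEv (N m M B : ℕ) (c0 E0 t : ℝ) (F : Finset Edg) : Prop :=
  ∃ z ∈ BX N, 2 * z.2 ≤ N ∧ (Ez N m z F ∧ ¬ RichOut N M B c0 E0 t (Clu N z F))

theorem hor {m M B : ℕ} {c0 E0 t : ℝ} {F : Finset Edg} {u v : Vtx} (hu : inR 0 N 0 N u)
    (hv : v ∈ Clu N u F) (hm : u.1 + m ≤ v.1) (hR : ¬ RichOut N M B c0 E0 t (Clu N u F)) :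
    AEv N m M B c0 E0 t F ∨ AEv N m M B c0 E0 t ((rfy N).mp F) := by
  obtain ⟨z, hz, hE⟩ := exists_min hu hv hm
  by_cases h2 : 2 * z.2 ≤ N
  · left
    refine ⟨z, mem_BX.2 hE.1, h2, hE, ?_⟩
    rw [clu_eq hz]
    exact hR
  · right
    have hg := bsym_rfy N
    have hu' := hg.inb u hu
    have hv' := clu_mem hg hv
    have hm' : ((rfy N).ψ u).1 + m ≤ ((rfy N).ψ v).1 := by
      obtain ⟨a, b⟩ := u
      obtain ⟨c, d⟩ := v
      rw [rfy_ψ, rfy_ψ]
      exact hm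
    obtain ⟨z', hz', hE'⟩ := exists_min hu' hv' hm'
    refine ⟨z', mem_BX.2 hE'.1, ?_, hE', ?_⟩
    · have h3 : (rfy N).ψ z ∈ Clu N z' ((rfy N).mp F) := by
        rw [clu_eq hz']
        exact clu_mem hg hz
      have h4 := hE'.2.1 _ h3
      have h5 : (rfy N).ψ z' ∈ Clu N z F := by
        have := clu_mem hg hz'
        rw [hg.inv, hg.mpp] at this
        rw [clu_eq hz]
        exact this
      have h6 := hE.2.1 _ h5
      obtain ⟨a, b⟩ := z
      obtain ⟨c, d⟩ := z'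
      rw [rfy_ψ] at h4 h6
      unfold Lx at h4 h6
      simp only at h4 h6 h2 ⊢
      omega
    · rw [clu_eq hz', clu_img hg, rich_iff hg]
      exact hR

theorem all {m M B : ℕ} {c0 E0 t : ℝ} {F : Finset Edg} {u v : Vtx} (hu : inR 0 N 0 N u)
    (hv : v ∈ Clu N u F) (hm : u.1 + m ≤ v.1 ∨ u.2 + m ≤ v.2)
    (hR : ¬ RichOut N M B c0 E0 t (Clu N u F)) :
    (AEv N m M B c0 E0 t F ∨ AEv N m M B c0 E0 t ((rfy N).mp F)) ∨
      (AEv N m M B c0 E0 t (tps.mp F) ∨ AEv N m M B c0 E0 t ((rfy N).mp (tps.mp F))) := by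
  rcases hm with hm | hm
  · exact Or.inl (hor hu hv hm hR)
  · right
    have hg := bsym_tps N
    have hm' : (tps.ψ u).1 + m ≤ (tps.ψ v).1 := by
      obtain ⟨a, b⟩ := u
      obtain ⟨c, d⟩ := v
      rw [tps_ψ, tps_ψ]
      exact hm
    refine hor (hg.inb u hu) (clu_mem hg hv) hm' ?_
    rw [clu_img hg, rich_iff hg]
    exact hR

/-! ### The union bound -/

theorem okph : Ok ph := fun _ => ⟨by norm_num, by norm_num⟩

theorem pr_ex {ι : Type} (S : Finset Edg) (T : Finset ι) (A : ι → Finset Edg → Prop) :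
    Pr ph S (fun F => ∃ z ∈ T, A z F) ≤ ∑ z ∈ T, Pr ph S (A z) := by
  unfold Pr
  rw [← Ex_sum]
  apply Ex_mono okph
  intro F _
  by_cases h : ∃ z ∈ T, A z F
  · obtain ⟨z, hz, hA⟩ := h
    rw [ind_of ⟨z, hz, hA⟩]
    calc (1 : ℝ) = ind (A z F) := (ind_of hA).symm
      _ ≤ ∑ z ∈ T, ind (A z F) :=
        single_le_sum (f := fun z => ind (A z F)) (fun i _ => ind_nonneg _) hz
  · rw [ind_not_of h]
    exact sum_nonneg fun i _ => ind_nonneg _

theorem pr_sym (hg : BSym N g) (A : Finset Edg → Prop) :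
    Pr ph (RE 0 N 0 N) (fun F => A (g.mp F)) = Pr ph (RE 0 N 0 N) A := by
  have h := LSym.pr g (1 / 2) (RE 0 N 0 N) A
  rw [hg.box] at h
  exact h.symm

theorem s_finl (hM : S_MAINZ) (hC : S_CNT) : S_FINL := by
  intro t ht0 ht1 K' η hK hη
  obtain ⟨C, hC0, hC1⟩ := hC K' hK
  obtain ⟨M, B, N1, c0, E0, hB, hc0, hE0, h⟩ := hM t ht0 ht1 K' (η / (4 * C)) hK (by positivity)
  refine ⟨M, B, max N1 (4 * K'), c0, E0, hB, hc0, hE0, fun N m hN hNm hmN => ?_⟩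
  have hN1 : N1 ≤ N := (le_max_left _ _).trans hN
  have hN4 : 4 * K' ≤ N := (le_max_right _ _).trans hN
  have hm4 : 4 ≤ m := by
    by_contra hcon
    push Not at hcon
    have h1 : K' * m ≤ K' * 3 := Nat.mul_le_mul_left _ (by omega)
    omega
  have hA : Pr ph (RE 0 N 0 N) (AEv N m M B c0 E0 t) ≤ η / 4 := by
    classical
    obtain ⟨T, hT⟩ : ∃ T, T = (BX N).filter (fun z : Vtx => 2 * z.2 ≤ (N : ℤ)) := ⟨_, rfl⟩
    have h1 : Pr ph (RE 0 N 0 N) (AEv N m M B c0 E0 t) ≤ Pr ph (RE 0 N 0 N) (fun F =>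
        ∃ z ∈ T, (Ez N m z F ∧ ¬ RichOut N M B c0 E0 t (Clu N z F))) := by
      apply Pr_mono okph
      rintro F _ ⟨z, hz, h2, h3⟩
      refine ⟨z, ?_, h3⟩
      rw [hT, mem_filter]
      exact ⟨hz, h2⟩
    have h2 : ∑ z ∈ T, Pr ph (RE 0 N 0 N)
        (fun F => Ez N m z F ∧ ¬ RichOut N M B c0 E0 t (Clu N z F)) ≤
        ∑ z ∈ T, η / (4 * C) * Pr ph (RE 0 N 0 N) (Ez N m z) := by
      apply sum_le_sum
      intro z hz
      rw [hT, mem_filter] at hz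
      exact h N m z hN1 hNm hmN hz.2
    have h3 : ∑ z ∈ T, η / (4 * C) * Pr ph (RE 0 N 0 N) (Ez N m z) ≤
        ∑ z ∈ BX N, η / (4 * C) * Pr ph (RE 0 N 0 N) (Ez N m z) := by
      rw [hT]
      apply sum_le_sum_of_subset_of_nonneg (filter_subset _ _)
      intro z _ _
      exact mul_nonneg (by positivity) (Pr_nonneg okph _ _)
    have h3' := mul_sum (BX N) (fun z => Pr ph (RE 0 N 0 N) (Ez N m z)) (η / (4 * C))
    have h4 := hC1 N m hm4 hNm
    have h5 : η / (4 * C) * ∑ z ∈ BX N, Pr ph (RE 0 N 0 N) (Ez N m z) ≤ η / (4 * C) * C :=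
      mul_le_mul_of_nonneg_left h4 (by positivity)
    have h6 : η / (4 * C) * C = η / 4 := by field_simp
    have h7 := pr_ex (RE 0 N 0 N) T
      (fun z F => Ez N m z F ∧ ¬ RichOut N M B c0 E0 t (Clu N z F))
    exact (h1.trans h7).trans ((h2.trans h3).trans ((le_of_eq h3'.symm).trans (h5.trans h6.le)))
  have hr := pr_sym (bsym_rfy N) (AEv N m M B c0 E0 t)
  have ht := pr_sym (bsym_tps N) (AEv N m M B c0 E0 t)
  have hrt := pr_sym (bsym_tps N) (fun F => AEv N m M B c0 E0 t ((rfy N).mp F))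
  have hmain : Pr ph (RE 0 N 0 N) (fun F => ∃ u v : Vtx, inR 0 N 0 N u ∧ v ∈ Clu N u F ∧
      (u.1 + m ≤ v.1 ∨ u.2 + m ≤ v.2) ∧ ¬ RichOut N M B c0 E0 t (Clu N u F)) ≤
      Pr ph (RE 0 N 0 N) (fun F => (AEv N m M B c0 E0 t F ∨ AEv N m M B c0 E0 t ((rfy N).mp F)) ∨
      (AEv N m M B c0 E0 t (tps.mp F) ∨ AEv N m M B c0 E0 t ((rfy N).mp (tps.mp F)))) := by
    apply Pr_mono okph
    rintro F _ ⟨u, v, hu, hv, hm, hR⟩
    exact all hu hv hm hR
  have e1 := Pr_or_le okph (RE 0 N 0 N)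
    (fun F => AEv N m M B c0 E0 t F ∨ AEv N m M B c0 E0 t ((rfy N).mp F))
    (fun F => AEv N m M B c0 E0 t (tps.mp F) ∨ AEv N m M B c0 E0 t ((rfy N).mp (tps.mp F)))
  have e2 := Pr_or_le okph (RE 0 N 0 N) (fun F => AEv N m M B c0 E0 t F)
    (fun F => AEv N m M B c0 E0 t ((rfy N).mp F))
  have e3 := Pr_or_le okph (RE 0 N 0 N) (fun F => AEv N m M B c0 E0 t (tps.mp F))
    (fun F => AEv N m M B c0 E0 t ((rfy N).mp (tps.mp F)))
  have e0 : Pr ph (RE 0 N 0 N) (fun F => AEv N m M B c0 E0 t F) =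
    Pr ph (RE 0 N 0 N) (AEv N m M B c0 E0 t) := rfl
  linarith

end Pool.Agent.W2helper82.OA.P19
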