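import Pool.Agent.W2helper82.OA.Stm

/-!
Outer boundaries, piece P7: `S_T1` implies `S_T2`.
-/

set_option autoImplicit false

namespace Pool.Agent.W2helper82.OA.P7

open H974 H12S Finset H984P H984N

/-! ### Distances -/

theorem sd_le {u v : Vtx} {k : ℤ} : sd u v ≤ k ↔
    (-k ≤ u.1 - v.1 ∧ u.1 - v.1 ≤ k) ∧ (-k ≤ u.2 - v.2 ∧ u.2 - v.2 ≤ k) := by
  unfold sd
  rw [max_le_iff, abs_le, abs_le]

theorem sd_lt {u v : Vtx} {k : ℤ} : sd u v < k ↔
    (-k < u.1 - v.1 ∧ u.1 - v.1 < k) ∧ (-k < u.2 - v.2 ∧ u.2 - v.2 < k) := by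
  unfold sd
  rw [max_lt_iff, abs_lt, abs_lt]

theorem step_le {e : Edg} {z : Vtx} : sd (src e) z ≤ sd (tgt e) z + 1 ∧
    sd (tgt e) z ≤ sd (src e) z + 1 := by
  have h1 := (sd_le (u := tgt e) (v := z) (k := sd (tgt e) z)).1 le_rfl
  have h2 := (sd_le (u := src e) (v := z) (k := sd (src e) z)).1 le_rfl
  obtain ⟨x, y, _ | _⟩ := e
  · simp only [src_mk, tgt_false] at h1 h2 ⊢
    constructor <;> rw [sd_le] <;> simp only <;> omega
  · simp only [src_mk, tgt_true] at h1 h2 ⊢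
    constructor <;> rw [sd_le] <;> simp only <;> omega

theorem ends_RE {a b c d : ℤ} {e : Edg} (h : e ∈ RE a b c d) :
    inR a b c d (src e) ∧ inR a b c d (tgt e) := by
  obtain ⟨x, y, _ | _⟩ := e
  · rw [mem_RE_false] at h
    unfold inR
    simp only [src_mk, tgt_false]
    omega
  · rw [mem_RE_true] at h
    unfold inR
    simp only [src_mk, tgt_true]
    omega

theorem mem_RE_of {a b c d : ℤ} {e : Edg} (h1 : inR a b c d (src e)) (h2 : inR a b c d (tgt e)) :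
    e ∈ RE a b c d := by
  obtain ⟨x, y, _ | _⟩ := e
  · unfold inR at h1 h2
    simp only [src_mk, tgt_false] at h1 h2
    rw [mem_RE_false]
    omega
  · unfold inR at h1 h2
    simp only [src_mk, tgt_true] at h1 h2
    rw [mem_RE_true]
    omega

theorem mem_blk {z : Vtx} {r : ℕ} {e : Edg} : e ∈ blk z r ↔ sd (src e) z ≤ r ∧ sd (tgt e) z ≤ r := by
  unfold blk
  rw [sd_le, sd_le]
  constructor
  · intro h
    have h1 := ends_RE h
    unfold inR at h1
    omega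
  · intro h
    apply mem_RE_of <;> unfold inR <;> omega

/-- the first vertex with a property -/
theorem entry {G : Set Edg} {P : Vtx → Prop} {u v : Vtx} (h : Reach G u v) (hv : P v) :
    ∃ w, P w ∧ Reach {e | e ∈ G ∧ (¬ P (src e) ∨ ¬ P (tgt e))} u w := by
  classical
  induction h using Relation.ReflTransGen.head_induction_on with
  | refl => exact ⟨v, hv, Reach.refl _ _⟩
  | @head a b hs _ ih =>
    by_cases ha : P a
    · exact ⟨a, ha, Reach.refl _ _⟩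
    · obtain ⟨w, hw, hr⟩ := ih
      refine ⟨w, hw, Reach.trans (Adj.reach ?_) hr⟩
      obtain ⟨e, he, h1 | h1⟩ := hs
      · exact ⟨e, ⟨he, Or.inl (by rw [h1.1]; exact ha)⟩, Or.inl h1⟩
      · exact ⟨e, ⟨he, Or.inr (by rw [h1.2]; exact ha)⟩, Or.inr h1⟩

/-- the vertices of a path in `GrV Obᶜ` -/
theorem notin_of_reach {Ob : Set Vtx} {A : Set Edg} {u v : Vtx} (hA : A ⊆ GrV Obᶜ) (hu : u ∉ Ob)
    (h : Reach A u v) : v ∉ Ob := by
  induction h with
  | refl => exact hu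
  | tail _ hs _ =>
    obtain ⟨e, he, h1 | h1⟩ := hs
    · rw [← h1.2]
      exact (hA he).2
    · rw [← h1.1]
      exact (hA he).1

/-! ### The inner edges are not used -/

theorem IE_ends {z : Vtx} {g s c : ℕ} (h3 : 10 * g ≤ c) (h4 : c + 10 * g ≤ s) {e : Edg}
    (he : e ∈ IE (og z g s) g s c) : ∀ v, v = src e ∨ v = tgt e →
    z.1 - 2 * g ≤ v.1 ∧ v.1 ≤ z.1 + 3 * g + s ∧ z.2 + 12 * s ≤ v.2 ∧ v.2 ≤ z.2 + 13 * s := by
  unfold IE B0 og at he
  rw [mem_union] at he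
  simp only at he
  have key : (inR (z.1 + 3 * g) (z.1 + 3 * g + s) (z.2 + 12 * s) (z.2 + 12 * s + s) (src e) ∧
      inR (z.1 + 3 * g) (z.1 + 3 * g + s) (z.2 + 12 * s) (z.2 + 12 * s + s) (tgt e)) ∨
      (inR (z.1 + 3 * g - 5 * g) (z.1 + 3 * g + 3 * g) (z.2 + 12 * s + c - 3 * g)
        (z.2 + 12 * s + c + 3 * g) (src e) ∧
      inR (z.1 + 3 * g - 5 * g) (z.1 + 3 * g + 3 * g) (z.2 + 12 * s + c - 3 * g)
        (z.2 + 12 * s + c + 3 * g) (tgt e)) := by
    rcases he with he | he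
    · exact Or.inl (ends_RE he)
    · exact Or.inr (ends_RE he)
  unfold inR at key
  rintro v (rfl | rfl)
  · rcases key with ⟨h5, h6⟩ | ⟨h5, h6⟩ <;> omega
  · rcases key with ⟨h5, h6⟩ | ⟨h5, h6⟩ <;> omega

theorem band_notIE {z : Vtx} {g s c a : ℕ} (h1 : 0 < g) (h2 : 64 * g ≤ s) (h3 : 10 * g ≤ c)
    (h4 : c + 10 * g ≤ s) (ha : a = 6 * s ∨ a = 16 * s) {e : Edg}
    (he : e ∈ bandE z s a ∪ kapE z s) : e ∉ IE (og z g s) g s c := by
  intro hI
  have h5 := IE_ends h3 h4 hI (src e) (Or.inl rfl)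
  unfold bandE kapE at he
  rw [mem_union, mem_union, mem_union] at he
  rcases he with (he | he | he) | he
  · have h6 := (ends_RE he).1
    unfold inR at h6
    omega
  · have h6 := (ends_RE he).1
    unfold inR at h6
    omega
  · have h6 := (ends_RE he).1
    unfold inR at h6
    omega
  · have h6 := (ends_RE he).1
    unfold inR at h6
    omega

theorem blk9_notIE {z : Vtx} {g s c : ℕ} (h1 : 0 < g) (h2 : 64 * g ≤ s) (h3 : 10 * g ≤ c)
    (h4 : c + 10 * g ≤ s) {e : Edg} (he : e ∈ blk z (9 * s)) : e ∉ IE (og z g s) g s c := by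
  intro hI
  have h5 := IE_ends h3 h4 hI (src e) (Or.inl rfl)
  have h6 := (mem_blk.1 he).1
  rw [sd_le] at h6
  push_cast at h6
  omega

theorem blk14_notIE {z : Vtx} {g s c : ℕ} (h1 : 0 < g) (h2 : 64 * g ≤ s) (h3 : 10 * g ≤ c)
    (h4 : c + 10 * g ≤ s) {e : Edg} (he : e ∉ blk z (14 * s)) : e ∉ IE (og z g s) g s c := by
  intro hI
  have h5 := IE_ends h3 h4 hI (src e) (Or.inl rfl)
  have h6 := IE_ends h3 h4 hI (tgt e) (Or.inr rfl)
  apply he
  rw [mem_blk, sd_le, sd_le]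
  push_cast
  omega

theorem sd_self (z : Vtx) : sd z z = 0 := by
  unfold sd
  simp

theorem s_t2 (hT : S_T1) : S_T2 := by
  intro z g s c Ob H h1 h2 h3 h4 hz hOb hLam w hw hQ
  obtain ⟨y0, y1, hy0, hy1, hkap⟩ := hLam.kap
  have hs0 : (0 : ℤ) < s := by omega
  obtain ⟨b0, hb0⟩ : ∃ b0 : Vtx, b0 = (z.1 + 5 * (s : ℤ), y0) := ⟨_, rfl⟩
  obtain ⟨b1, hb1⟩ : ∃ b1 : Vtx, b1 = (z.1 + 18 * (s : ℤ), y1) := ⟨_, rfl⟩
  rw [← hb0, ← hb1] at hkap
  have e0 : b0.1 = z.1 + 5 * s := by rw [hb0]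
  have e1 : b1.1 = z.1 + 18 * s := by rw [hb1]
  have e2 : z.2 ≤ b0.2 ∧ b0.2 ≤ z.2 + 2 * s := by rw [hb0]; exact hy0
  have e3 : z.2 ≤ b1.2 ∧ b1.2 ≤ z.2 + 2 * s := by rw [hb1]; exact hy1
  -- connections in the bands
  have hband : ∀ a : ℕ, (a = 6 * s ∨ a = 16 * s) → ∀ x0 : Vtx,
      Reach (↑H ∩ GrV Obᶜ ∩ ↑(bandE z s a ∪ kapE z s)) x0 b0 →
      Reach (↑(H \ IE (og z g s) g s c) ∩ GrV Obᶜ) x0 b0 := by
    intro a ha x0 hx
    apply hx.mono
    rintro e ⟨⟨he1, he2⟩, he3⟩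
    refine ⟨?_, he2⟩
    rw [mem_coe, mem_sdiff]
    exact ⟨mem_coe.1 he1, band_notIE h1 h2 h3 h4 ha (mem_coe.1 he3)⟩
  -- from `z` to `b0`
  have part1 : Reach (↑(H \ IE (og z g s) g s c) ∩ GrV Obᶜ) z b0 := by
    obtain ⟨w1, hw1, hr1⟩ := entry (P := fun v => 9 * (s : ℤ) ≤ sd v z) hQ (by
      show 9 * (s : ℤ) ≤ sd w z
      omega)
    have hr2 : Reach (↑H ∩ GrV Obᶜ ∩ ↑(blk z (9 * s))) z w1 := by
      apply hr1.mono
      rintro e ⟨he1, he2⟩
      refine ⟨he1, ?_⟩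
      rw [mem_coe, mem_blk]
      have h5 := step_le (e := e) (z := z)
      push_cast
      rcases he2 with he2 | he2
      · have he3 : ¬ (9 * (s : ℤ) ≤ sd (src e) z) := he2
        omega
      · have he3 : ¬ (9 * (s : ℤ) ≤ sd (tgt e) z) := he2
        omega
    obtain ⟨x0, hx1, hx2⟩ := hT z g s (6 * s) Ob H b0 b1 h1 h2 hz hOb (Or.inl rfl) hLam.b6 e0 e1 e2 e3
      hkap (↑H ∩ GrV Obᶜ ∩ ↑(blk z (9 * s))) z w1 (fun e he => he.1.2) hOb.nz (by
        rw [sd_self]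
        push_cast
        omega) (by
        have : 9 * (s : ℤ) ≤ sd w1 z := hw1
        push_cast
        omega) hr2
    refine Reach.trans (hx1.mono ?_) (hband _ (Or.inl rfl) x0 hx2)
    rintro e ⟨⟨he1, he2⟩, he3⟩
    refine ⟨?_, he2⟩
    rw [mem_coe, mem_sdiff]
    exact ⟨mem_coe.1 he1, blk9_notIE h1 h2 h3 h4 (mem_coe.1 he3)⟩
  have hzn : z ∉ Ob := hOb.nz
  refine ⟨part1.trans ?_, ?_⟩
  · -- from `b0` to `w`
    obtain ⟨u, hu, hr1⟩ := entry (P := fun v => sd v z ≤ 14 * (s : ℤ)) hQ.symm (by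
      show sd z z ≤ 14 * (s : ℤ)
      rw [sd_self]
      omega)
    have hr2 : Reach (↑H ∩ GrV Obᶜ ∩ {e | e ∉ blk z (14 * s)}) u w := by
      apply hr1.symm.mono
      rintro e ⟨he1, he2⟩
      refine ⟨he1, fun hcon => ?_⟩
      rw [mem_blk] at hcon
      push_cast at hcon
      rcases he2 with he2 | he2
      · exact he2 hcon.1
      · exact he2 hcon.2
    have hwn : w ∉ Ob := notin_of_reach (fun e he => he.2) hzn hQ
    have hun : u ∉ Ob := notin_of_reach (A := ↑H ∩ GrV Obᶜ ∩ {e | e ∉ blk z (14 * s)})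
      (fun e he => he.1.2) hwn hr2.symm
    obtain ⟨x0, hx1, hx2⟩ := hT z g s (16 * s) Ob H b0 b1 h1 h2 hz hOb (Or.inr rfl) hLam.b16 e0 e1 e2
      e3 hkap (↑H ∩ GrV Obᶜ ∩ {e | e ∉ blk z (14 * s)}) u w (fun e he => he.1.2) hun (by
        have : sd u z ≤ 14 * (s : ℤ) := hu
        push_cast
        omega) (by
        push_cast
        omega) hr2
    have hsub : (↑H ∩ GrV Obᶜ ∩ {e | e ∉ blk z (14 * s)} : Set Edg) ⊆
        ↑(H \ IE (og z g s) g s c) ∩ GrV Obᶜ := by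
      rintro e ⟨⟨he1, he2⟩, he3⟩
      refine ⟨?_, he2⟩
      rw [mem_coe, mem_sdiff]
      exact ⟨mem_coe.1 he1, blk14_notIE h1 h2 h3 h4 he3⟩
    exact (hband _ (Or.inr rfl) x0 hx2).symm.trans ((hx1.mono hsub).symm.trans (hr2.mono hsub))
  · -- the crossing on the right side of the local box
    intro p q hp hq hpr hqr hr
    unfold og at hp hq hpr hqr hr
    simp only at hp hq hpr hqr hr
    have hA : (↑H ∩ ↑(TBE (z.1 + 3 * g + s + 1) (z.1 + 3 * g + 2 * s) (z.2 + 12 * s - 2 * s)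
        (z.2 + 12 * s + 7 * s)) : Set Edg) ⊆ GrV Obᶜ := by
      rintro e ⟨_, he⟩
      have h5 := ends_RE (TBE_subset_RE (mem_coe.1 he))
      have h6 : ∀ v : Vtx, inR (z.1 + 3 * g + s + 1) (z.1 + 3 * g + 2 * s) (z.2 + 12 * s - 2 * s)
          (z.2 + 12 * s + 7 * s) v → v ∉ Ob := by
        intro v hv
        unfold inR at hv
        apply hOb.fre
        · rw [← not_lt, sd_lt]
          omega
        · rw [sd_le]
          omega
        · omega
        · omega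
      exact ⟨h6 _ h5.1, h6 _ h5.2⟩
    have hpn : p ∉ Ob := by
      unfold inR at hpr
      apply hOb.fre
      · rw [← not_lt, sd_lt]
        omega
      · rw [sd_le]
        omega
      · omega
      · omega
    obtain ⟨x0, hx1, hx2⟩ := hT z g s (16 * s) Ob H b0 b1 h1 h2 hz hOb (Or.inr rfl) hLam.b16 e0 e1 e2
      e3 hkap (↑H ∩ ↑(TBE (z.1 + 3 * g + s + 1) (z.1 + 3 * g + 2 * s) (z.2 + 12 * s - 2 * s)
        (z.2 + 12 * s + 7 * s))) p q hA hpn (by
        unfold inR at hpr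
        have : sd p z ≤ 14 * (s : ℤ) := by
          rw [sd_le]
          omega
        push_cast
        omega) (by
        have : 19 * (s : ℤ) ≤ sd q z := by
          rw [← not_lt, sd_lt]
          omega
        push_cast
        omega) hr
    have hz1 : Reach (↑H ∩ GrV Obᶜ) z b0 := by
      apply part1.mono
      rintro e ⟨he1, he2⟩
      rw [mem_coe, mem_sdiff] at he1
      exact ⟨mem_coe.2 he1.1, he2⟩
    refine hz1.trans (Reach.trans ?_ (hx1.mono ?_).symm)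
    · apply hx2.symm.mono
      exact fun e he => he.1
    · intro e he
      exact ⟨he.1, hA he⟩

end Pool.Agent.W2helper82.OA.P7
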